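import Pool.Agent.H30.HEP.Defs
import Pool.Agent.H22.Cubic.Main

open MvPolynomial

namespace Pool.Agent.H30.HEP

open Pool.Agent.H22

variable {F K : Type} [Field F] [Field K] [Algebra F K]

theorem eval_geom (f : MvPolynomial (Fin 4) F) (p : Fin 4 → K) :
    eval p (Cubic.geom K f) = aeval p f := by
  unfold Cubic.geom
  rw [eval_map, aeval_def]

theorem eval_pderiv_geom (f : MvPolynomial (Fin 4) F) (p : Fin 4 → K) (i : Fin 4) :
    eval p (pderiv i (Cubic.geom K f)) = aeval p (pderiv i f) := by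
  unfold Cubic.geom
  rw [pderiv_map, eval_map, aeval_def]

theorem ne_zero_iff (p : Fin 4 → K) : (∃ i, p i ≠ 0) ↔ p ≠ 0 := by
  rw [Function.ne_iff]
  rfl

theorem tangent_eq (f : MvPolynomial (Fin 4) F) (p : Fin 4 → K) :
    tangentPlane f p = Cubic.tangentPlane (Cubic.geom K f) p := by
  ext u
  show ∑ i, aeval p (pderiv i f) * u i = 0 ↔ ∑ i, eval p (pderiv i (Cubic.geom K f)) * u i = 0
  simp only [eval_pderiv_geom]

theorem smooth_iff (f : MvPolynomial (Fin 4) F) :
    IsSmooth K f ↔ Cubic.IsSmooth (Cubic.geom K f) := by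
  unfold IsSmooth Cubic.IsSmooth
  simp only [ne_zero_iff, eval_geom, eval_pderiv_geom]

theorem span_eq (u v : Fin 4 → K) :
    span u v = (Submodule.span K {u, v} : Set (Fin 4 → K)) := by
  ext p
  rw [SetLike.mem_coe, Submodule.mem_span_pair]
  constructor
  · rintro ⟨a, b, h⟩
    exact ⟨a, b, funext fun i => (h i).symm⟩
  · rintro ⟨a, b, h⟩
    exact ⟨a, b, fun i => by rw [← h]; rfl⟩

theorem linesOn_eq (f : MvPolynomial (Fin 4) F) :
    linesOn K f = (fun W : Submodule K (Fin 4 → K) => (W : Set (Fin 4 → K))) ''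
      Cubic.linesOn (Cubic.geom K f) := by
  ext S
  constructor
  · rintro ⟨⟨u, v, h, rfl⟩, h2⟩
    refine ⟨Submodule.span K {u, v}, ⟨?_, ?_⟩, (span_eq u v).symm⟩
    · have hli : LinearIndependent K ![u, v] := by
        rw [LinearIndependent.pair_iff]
        intro a b hab
        exact h a b fun i => congrFun hab i
      have := finrank_span_eq_card hli
      rw [Matrix.range_cons, Matrix.range_cons, Matrix.range_empty, Set.union_empty,
        Set.singleton_union] at this
      simpa using this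
    · intro w hw
      rw [eval_geom]
      exact h2 w (by rw [span_eq]; exact hw)
  · rintro ⟨W, ⟨h1, h2⟩, rfl⟩
    obtain ⟨B⟩ : Nonempty (Module.Basis (Fin 2) K W) := ⟨Module.finBasisOfFinrankEq K W h1⟩
    refine ⟨⟨B 0, B 1, ?_, ?_⟩, fun p hp => by rw [← eval_geom]; exact h2 p hp⟩
    · intro a b hab
      have hli := B.linearIndependent
      rw [Fintype.linearIndependent_iff] at hli
      have h3 := hli ![a, b] (by
        rw [Fin.sum_univ_two]
        ext i
        simpa using hab i)
      exact ⟨by simpa using h3 0, by simpa using h3 1⟩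
    · ext p
      constructor
      · intro hp
        have h4 := B.sum_repr ⟨p, hp⟩
        rw [Fin.sum_univ_two] at h4
        refine ⟨B.repr ⟨p, hp⟩ 0, B.repr ⟨p, hp⟩ 1, fun i => ?_⟩
        have h5 := congrFun (congrArg Subtype.val h4) i
        simpa using h5.symm
      · rintro ⟨a, b, h⟩
        have : p = a • (B 0 : Fin 4 → K) + b • (B 1 : Fin 4 → K) := funext fun i => h i
        rw [this]
        exact W.add_mem (W.smul_mem _ (B 0).2) (W.smul_mem _ (B 1).2)

theorem rational_iff (p : Fin 4 → K) : IsRationalPoint F p ↔ Cubic.IsRationalPoint F p := by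
  unfold IsRationalPoint Cubic.IsRationalPoint
  refine exists_congr fun v => exists_congr fun c => ?_
  constructor
  · intro h
    exact funext h
  · intro h i
    rw [h]
    rfl

theorem prop_iff (p q : Fin 4 → K) : (∃ c : K, ∀ i, q i = c * p i) ↔ ∃ c : K, q = c • p := by
  refine exists_congr fun c => ?_
  constructor
  · intro h
    exact funext h
  · intro h i
    rw [h]
    rfl

theorem segre_iff (f : MvPolynomial (Fin 4) F) (W : Submodule K (Fin 4 → K))
    (L : (Fin 4 → K) →ₗ[K] (Fin 4 → K)) :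
    IsSegre f (W : Set (Fin 4 → K)) L ↔ Cubic.IsSegreInvolution (Cubic.geom K f) W L := by
  constructor
  · rintro ⟨-, h1, h2, p, hp, h3⟩
    refine ⟨h1, fun p hp h => ?_, ⟨p, hp, fun c hc => h3 ((prop_iff _ _).2 ⟨c, hc⟩)⟩,
      fun p hp h0 => ?_⟩
    · by_contra hne
      exact (ne_zero_iff _).1 (h2 p hp ((ne_zero_iff _).2 hne)).1 h
    · have := (h2 p hp ((ne_zero_iff _).2 h0)).2
      rwa [tangent_eq, tangent_eq] at this
  · rintro ⟨h1, h2, ⟨p, hp, h3⟩, h4⟩
    refine ⟨fun a b p q i => ?_, h1, fun p hp h0 => ⟨(ne_zero_iff _).2 fun h =>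
      (ne_zero_iff _).1 h0 (h2 p hp h), ?_⟩, p, hp, fun h => ?_⟩
    · have : (fun j => a * p j + b * q j) = a • p + b • q := rfl
      rw [this, map_add, map_smul, map_smul]
      rfl
    · rw [tangent_eq, tangent_eq]
      exact h4 p hp ((ne_zero_iff _).1 h0)
    · obtain ⟨c, hc⟩ := (prop_iff _ _).1 h
      exact h3 c hc

theorem fixed_iff (f : MvPolynomial (Fin 4) F) (W : Submodule K (Fin 4 → K))
    (Q : (Fin 4 → K) → Prop) :
    FixedPoints f (W : Set (Fin 4 → K)) Q ↔ ∃ L, Cubic.IsSegreInvolution (Cubic.geom K f) W L ∧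
      ∀ p ∈ W, p ≠ 0 → (∃ c : K, L p = c • p) → Q p := by
  constructor
  · rintro ⟨L, hL, h⟩
    let L' : (Fin 4 → K) →ₗ[K] (Fin 4 → K) :=
      { toFun := L
        map_add' := fun p q => by
          funext i
          have := hL.1 1 1 p q i
          simp only [one_mul] at this
          exact this
        map_smul' := fun a p => by
          funext i
          have := hL.1 a 0 p p i
          simp only [zero_mul, add_zero] at this
          exact this }
    exact ⟨L', (segre_iff f W L').1 hL, fun p hp h0 hc => h p hp ((ne_zero_iff _).2 h0)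
      ((prop_iff _ _).2 hc)⟩
  · rintro ⟨L, hL, h⟩
    exact ⟨L, (segre_iff f W L).2 hL, fun p hp h0 hc => h p hp ((ne_zero_iff _).1 h0)
      ((prop_iff _ _).1 hc)⟩

theorem ncard_eq (f : MvPolynomial (Fin 4) F) (P : Set (Fin 4 → K) → Prop)
    (P' : Submodule K (Fin 4 → K) → Prop) (h : ∀ W : Submodule K (Fin 4 → K), P W ↔ P' W) :
    {W ∈ linesOn K f | P W}.ncard = {W ∈ Cubic.linesOn (Cubic.geom K f) | P' W}.ncard := by
  rw [← Set.ncard_image_of_injective (f := fun W : Submodule K (Fin 4 → K) =>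
    (W : Set (Fin 4 → K))) _ SetLike.coe_injective]
  congr 1
  ext S
  constructor
  · rintro ⟨h1, h2⟩
    rw [linesOn_eq] at h1
    obtain ⟨W, hW, rfl⟩ := h1
    exact ⟨W, ⟨hW, (h W).1 h2⟩, rfl⟩
  · rintro ⟨W, ⟨hW, h2⟩, rfl⟩
    refine ⟨?_, (h W).2 h2⟩
    rw [linesOn_eq]
    exact ⟨W, hW, rfl⟩

theorem numHyperbolic_eq (f : MvPolynomial (Fin 4) F) :
    numHyperbolic K f = Cubic.numHyperbolic K f := by
  refine ncard_eq f _ _ fun W => ?_
  rw [fixed_iff]
  unfold Cubic.IsHyperbolic
  simp only [rational_iff]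

theorem numElliptic_eq (f : MvPolynomial (Fin 4) F) :
    numElliptic K f = Cubic.numElliptic K f := by
  refine ncard_eq f _ _ fun W => ?_
  rw [fixed_iff]
  unfold Cubic.IsElliptic
  simp only [rational_iff]

theorem split_iff (f : MvPolynomial (Fin 4) F) : IsSplitCubic K f ↔ Cubic.IsSplitCubic K f := by
  have hn : (linesOn K f).ncard = (Cubic.linesOn (Cubic.geom K f)).ncard := by
    rw [linesOn_eq, Set.ncard_image_of_injective _ SetLike.coe_injective]
  have hr : (∀ W ∈ linesOn K f, ∃ u v : Fin 4 → F,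
      W = span (fun i => algebraMap F K (u i)) (fun i => algebraMap F K (v i))) ↔
      ∀ W ∈ Cubic.linesOn (Cubic.geom K f), Cubic.IsRationalLine F W := by
    rw [linesOn_eq, Set.forall_mem_image]
    refine forall₂_congr fun W _ => ?_
    unfold Cubic.IsRationalLine
    refine exists_congr fun u => exists_congr fun v => ?_
    rw [span_eq]
    exact SetLike.coe_set_eq
  constructor
  · rintro ⟨h1, h2, h3, h4⟩
    exact ⟨h1, (smooth_iff f).1 h2, hn ▸ h3, hr.1 h4⟩
  · rintro ⟨h1, h2, h3, h4⟩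
    exact ⟨h1, (smooth_iff f).2 h2, hn.trans h3, hr.2 h4⟩

theorem main (F : Type) [Field F] [Fintype F] (h2 : (2 : F) ≠ 0) (H E : ℕ) :
    (∃ f : MvPolynomial (Fin 4) F, IsSplitCubic (AlgebraicClosure F) f ∧
      numHyperbolic (AlgebraicClosure F) f = H ∧ numElliptic (AlgebraicClosure F) f = E) ↔
    (7 ≤ Fintype.card F ∧ H = 27 ∧ E = 0) ∨ (9 ≤ Fintype.card F ∧ H = 15 ∧ E = 12) ∨
      (17 ≤ Fintype.card F ∧ H = 11 ∧ E = 16) := by
  simp only [split_iff, numHyperbolic_eq, numElliptic_eq]
  constructor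
  · rintro ⟨f, hf, rfl, rfl⟩
    exact Cubic.main_forward h2 f hf
  · exact Cubic.main_backward h2 H E

end Pool.Agent.H30.HEP
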