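import Mathlib

/-!
# Definitions: hyperbolic and elliptic lines on split cubic surfaces

`F` is a field and `K` an algebraically closed extension of `F` (for a finite field `F` we take
`K = AlgebraicClosure F`). A cubic surface is given by a cubic form `f` in four variables over `F`.
Points of projective space over `K` are given by nonzero vectors, lines by the set of the vectors
of a two-dimensional subspace.
-/

open MvPolynomial

namespace Pool.Agent.H30.HEP

variable {F K : Type} [Field F] [Field K] [Algebra F K]

/-- The surface `f = 0` has no singular point over `K`. -/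
def IsSmooth (K : Type) [Field K] [Algebra F K] (f : MvPolynomial (Fin 4) F) : Prop :=
  ∀ p : Fin 4 → K, (∃ i, p i ≠ 0) → aeval p f = 0 → ∃ i, aeval p (pderiv i f) ≠ 0

/-- The tangent plane `T_pX` of the surface `X : f = 0` at `p`, as a set of vectors. -/
def tangentPlane (f : MvPolynomial (Fin 4) F) (p : Fin 4 → K) : Set (Fin 4 → K) :=
  {u | ∑ i, aeval p (pderiv i f) * u i = 0}

/-- The span of the vectors `u` and `v`. -/
def span (u v : Fin 4 → K) : Set (Fin 4 → K) := {p | ∃ a b : K, ∀ i, p i = a * u i + b * v i}

/-- The lines over `K` contained in the surface `f = 0`. -/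
def linesOn (K : Type) [Field K] [Algebra F K] (f : MvPolynomial (Fin 4) F) :
    Set (Set (Fin 4 → K)) :=
  {W | (∃ u v : Fin 4 → K, (∀ a b : K, (∀ i, a * u i + b * v i = 0) → a = 0 ∧ b = 0) ∧
    W = span u v) ∧ ∀ p ∈ W, aeval p f = 0}

/-- The point given by the vector `p` is `F`-rational. -/
def IsRationalPoint (F : Type) [Field F] [Algebra F K] (p : Fin 4 → K) : Prop :=
  ∃ (v : Fin 4 → F) (c : K), ∀ i, p i = c * algebraMap F K (v i)

/-- `f = 0` is a smooth cubic surface which contains exactly 27 lines over `K`, all of them defined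
over `F`. -/
def IsSplitCubic (K : Type) [Field K] [Algebra F K] (f : MvPolynomial (Fin 4) F) : Prop :=
  f.IsHomogeneous 3 ∧ IsSmooth K f ∧ (linesOn K f).ncard = 27 ∧
    ∀ W ∈ linesOn K f, ∃ u v : Fin 4 → F,
      W = span (fun i => algebraMap F K (u i)) (fun i => algebraMap F K (v i))

/-- `L` is (a linear map inducing) Segre's involution of the line `W` on the surface `f = 0`: a
nontrivial automorphism of the line which commutes with the map `p ↦ T_pX`. -/
def IsSegre (f : MvPolynomial (Fin 4) F) (W : Set (Fin 4 → K)) (L : (Fin 4 → K) → Fin 4 → K) :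
    Prop :=
  (∀ (a b : K) p q i, L (fun j => a * p j + b * q j) i = a * L p i + b * L q i) ∧
  (∀ p ∈ W, L p ∈ W) ∧
  (∀ p ∈ W, (∃ i, p i ≠ 0) → (∃ i, L p i ≠ 0) ∧ tangentPlane f (L p) = tangentPlane f p) ∧
  ∃ p ∈ W, ¬ ∃ c : K, ∀ i, L p i = c * p i

/-- Segre's involution of the line `W` exists, and its fixed points have the property `Q`. -/
def FixedPoints (f : MvPolynomial (Fin 4) F) (W : Set (Fin 4 → K)) (Q : (Fin 4 → K) → Prop) :
    Prop :=
  ∃ L, IsSegre f W L ∧ ∀ p ∈ W, (∃ i, p i ≠ 0) → (∃ c : K, ∀ i, L p i = c * p i) → Q p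

/-- The number of hyperbolic lines on the surface `f = 0`: both fixed points of Segre's involution
are `F`-rational. -/
noncomputable def numHyperbolic (K : Type) [Field K] [Algebra F K] (f : MvPolynomial (Fin 4) F) : ℕ :=
  {W ∈ linesOn K f | FixedPoints f W (IsRationalPoint F)}.ncard

/-- The number of elliptic lines on the surface `f = 0`: no fixed point of Segre's involution is
`F`-rational. -/
noncomputable def numElliptic (K : Type) [Field K] [Algebra F K] (f : MvPolynomial (Fin 4) F) : ℕ :=
  {W ∈ linesOn K f | FixedPoints f W (fun p => ¬ IsRationalPoint F p)}.ncard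

end Pool.Agent.H30.HEP
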